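import Pool.Agent.P.MP_d05bff_gt.Poincare
import Pool.Agent.P.MP_d05bff_gt.Dense
import Pool.Agent.P.MP_d05bff_gt.Dual
import Pool.Agent.P.MP_d05bff_gt.Vor
import Pool.Agent.P.MP_d05bff_gt.Split
import Pool.Agent.P.MP_d05bff_gt.Extremal
import Pool.Agent.P.MP_d05bff_gt.Greedy
import Pool.Agent.P.MP_d05bff_gt.Comb
import Pool.Agent.P.MP_d05bff_gt.Ito
import Pool.Agent.P.MP_d05bff_gt.Gen
import Pool.Agent.P.MP_d05bff_gt.Guan
import Pool.Agent.P.MP_d05bff_gt.Geo
import Pool.Agent.P.MP_d05bff_gt.Poly
import Pool.Agent.P.MP_d05bff_gt.Hurewicz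
import Pool.Agent.P.MP_d05bff_gt.Cocycle
import Pool.Agent.P.MP_d05bff_gt.Topo

/-!
The universal abelian cover of a compact length space with finite first homology has diameter
at most `C (1 + log |H_1|)` times the diameter of the base.
-/

namespace Pool.Agent.Results.MP_d05bff_gt.LogDiameter

open Pool.Agent.P.MP_d05bff_gt

universe u v

theorem result :
    ∃ K : ℝ, ∀ (X : Type u) [MetricSpace X] [CompactSpace X] [PathConnectedSpace X]
      (E : Type v) [TopologicalSpace E] [PathConnectedSpace E] (p : ContinuousMap E X) (e : E),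
      IsLengthSpace X → IsCoveringMap p →
      (FundamentalGroup.map p e).range = commutator (FundamentalGroup X (p e)) →
      Finite (H1 X) →
      ⨆ (a : E) (b : E), liftedDist p a b ≤
        ENNReal.ofReal (K * (1 + Real.log (Nat.card (H1 X)))) *
          Metric.ediam (Set.univ : Set X) :=
  have T : T3Stmt := t3 (poincare dense)
  topo (comb ff (cover ff mat (split ff)
    (geo (guan T (genThm ito) ito) (vol T) dual1 dual2 vor ff)) (greedy mat)) cocycle hurewicz

end Pool.Agent.Results.MP_d05bff_gt.LogDiameter
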